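import Pool.Agent.H369R3.UT.Defs

set_option autoImplicit false

/-! Project H369-UT, task J2 (helper115). -/

open Set Filter Topology Metric MeasureTheory

namespace Pool.Agent.H115R3.UT_J2
open Pool.Agent.H369R3.UT

theorem taskJ2 : Pool.Agent.H369R3.UT.TaskJ2 := by
  intro n u f a R M hM hle husc x hx
  have hx' : ∀ j : ℕ, ∃ k, j ≤ k ∧ ∃ p ∈ contact (f k) a R M, dist x p < 1 / ((j : ℝ) + 1) := by
    intro j
    have h := mem_iInter.1 hx j
    rw [Metric.mem_closure_iff] at h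
    obtain ⟨p, hp, hd⟩ := h (1 / ((j : ℝ) + 1)) (by positivity)
    simp only [mem_iUnion] at hp
    obtain ⟨k, hk, hp⟩ := hp
    exact ⟨k, hk, p, hp, hd⟩
  choose k hk p hp hd using hx'
  have hpx : Tendsto p atTop (𝓝 x) := by
    rw [tendsto_iff_dist_tendsto_zero]
    refine squeeze_zero (fun _ => dist_nonneg) (fun j => ?_) tendsto_one_div_add_atTop_nhds_zero_nat
    rw [dist_comm]
    exact (hd j).le
  have hxR : x ∈ closedBall a R :=
    isClosed_closedBall.mem_of_tendsto hpx (Eventually.of_forall fun j => (hp j).1)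
  choose y hy hyz using fun j => (hp j).2
  obtain ⟨y0, hy0, φ, hφ, hlim⟩ := (isCompact_closedBall a R).tendsto_subseq hy
  refine ⟨hxR, y0, hy0, fun z hz => ?_⟩
  refine le_of_forall_pos_le_add fun ε hε => ?_
  obtain ⟨K, s, hs, hK⟩ := husc x hxR (u x + ε) (by linarith)
  have hpφ : Tendsto (fun j => p (φ j)) atTop (𝓝 x) := hpx.comp hφ.tendsto_atTop
  have hlim' : Tendsto (fun j => y (φ j)) atTop (𝓝 y0) := hlim
  have h1 : Tendsto (fun j => u z - M / 2 * ‖z - y (φ j)‖ ^ 2) atTop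
      (𝓝 (u z - M / 2 * ‖z - y0‖ ^ 2)) :=
    tendsto_const_nhds.sub (((tendsto_const_nhds.sub hlim').norm.pow 2).const_mul _)
  have h2 : Tendsto (fun j => (u x + ε) - M / 2 * ‖p (φ j) - y (φ j)‖ ^ 2) atTop
      (𝓝 ((u x + ε) - M / 2 * ‖x - y0‖ ^ 2)) :=
    tendsto_const_nhds.sub (((hpφ.sub hlim').norm.pow 2).const_mul _)
  have h3 : u z - M / 2 * ‖z - y0‖ ^ 2 ≤ (u x + ε) - M / 2 * ‖x - y0‖ ^ 2 := by
    refine le_of_tendsto_of_tendsto h1 h2 ?_
    have e1 : ∀ᶠ j in atTop, K ≤ φ j := hφ.tendsto_atTop.eventually_ge_atTop K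
    have e2 : ∀ᶠ j in atTop, p (φ j) ∈ ball x s := hpφ (ball_mem_nhds x hs)
    filter_upwards [e1, e2] with j hj1 hj2
    have h4 := hyz (φ j) z hz
    have h5 := hle (k (φ j)) z hz
    have h6 := hK (k (φ j)) (hj1.trans (hk (φ j))) (p (φ j)) ⟨hj2, (hp (φ j)).1⟩
    linarith
  linarith

end Pool.Agent.H115R3.UT_J2
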